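import Pool.Agent.W973.IP.FDefs

/-! Project IP (MP_47d501_lc), part IPF-FV: the variables of `finF`. -/

set_option autoImplicit false

namespace Pool.Agent.W765.IP

open Pool.Agent.NPC Pool.Agent.NPC.ER Pool.Agent.NPC.H612 Pool.Agent.W973.IP

/-! ### Variables of terms and formulas -/

theorem tvars_var (i : ℕ) : tvars (Tm.var i) = [i] := by
  simp [tvars, Tm.toks, tokv, Tok.code]

theorem tvars_zero : tvars Tm.zero = [] := by
  simp [tvars, Tm.toks, tokv, Tok.code]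

theorem tvars_one : tvars Tm.one = [] := by
  simp [tvars, Tm.toks, tokv, Tok.code]

theorem tvars_add (s t : Tm) : tvars (Tm.add s t) = tvars s ++ tvars t := by
  simp [tvars, Tm.toks, tokv, Tok.code]

theorem tvars_mul (s t : Tm) : tvars (Tm.mul s t) = tvars s ++ tvars t := by
  simp [tvars, Tm.toks, tokv, Tok.code]

theorem tvars_neg (s : Tm) : tvars (Tm.neg s) = tvars s := by
  simp [tvars, Tm.toks, tokv, Tok.code]

theorem fvars_eq (s t : Tm) : fvars (Fm.eq s t) = tvars s ++ tvars t := by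
  simp [fvars, tvars, Fm.toks, tokv, Tok.code]

theorem fvars_lt (s t : Tm) : fvars (Fm.lt s t) = tvars s ++ tvars t := by
  simp [fvars, tvars, Fm.toks, tokv, Tok.code]

theorem fvars_le (s t : Tm) : fvars (Fm.le s t) = tvars s ++ tvars t := by
  simp [fvars, tvars, Fm.toks, tokv, Tok.code]

theorem fvars_not (φ : Fm) : fvars (Fm.not φ) = fvars φ := by
  simp [fvars, Fm.toks, tokv, Tok.code]

theorem fvars_and (φ ψ : Fm) : fvars (Fm.and φ ψ) = fvars φ ++ fvars ψ := by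
  simp [fvars, Fm.toks, tokv, Tok.code]

theorem fvars_tt : fvars tt = [] := by
  rw [tt, fvars_eq, tvars_zero]
  rfl

theorem mem_sumT (m : ℕ) (l : List Tm) : m ∈ tvars (sumT l) ↔ ∃ t ∈ l, m ∈ tvars t := by
  induction l with
  | nil => simp [sumT, tvars_zero]
  | cons a l ih =>
    change m ∈ tvars (Tm.add a (sumT l)) ↔ _
    rw [tvars_add, List.mem_append, ih]
    simp

theorem mem_prodT (m : ℕ) (l : List Tm) : m ∈ tvars (prodT l) ↔ ∃ t ∈ l, m ∈ tvars t := by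
  induction l with
  | nil => simp [prodT, tvars_one]
  | cons a l ih =>
    change m ∈ tvars (Tm.mul a (prodT l)) ↔ _
    rw [tvars_mul, List.mem_append, ih]
    simp

theorem mem_conj (m : ℕ) (l : List Fm) : m ∈ fvars (conj l) ↔ ∃ φ ∈ l, m ∈ fvars φ := by
  induction l with
  | nil => simp [conj, fvars_tt]
  | cons a l ih =>
    change m ∈ fvars (Fm.and a (conj l)) ↔ _
    rw [fvars_and, List.mem_append, ih]
    simp

/-! ### Terms and formulas with variables in a given set -/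

section
variable {P : ℕ → Prop}

/-- all variables of the term satisfy `P` -/
def TA (P : ℕ → Prop) (t : Tm) : Prop := ∀ m ∈ tvars t, P m

/-- all variables of the formula satisfy `P` -/
def FA (P : ℕ → Prop) (φ : Fm) : Prop := ∀ m ∈ fvars φ, P m

theorem ta_var {i : ℕ} (h : P i) : TA P (Tm.var i) := by
  intro m hm
  rw [tvars_var, List.mem_singleton] at hm
  rw [hm]
  exact h

theorem ta_zero : TA P Tm.zero := by
  intro m hm
  rw [tvars_zero] at hm
  cases hm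

theorem ta_one : TA P Tm.one := by
  intro m hm
  rw [tvars_one] at hm
  cases hm

theorem ta_add {s t : Tm} (hs : TA P s) (ht : TA P t) : TA P (Tm.add s t) := by
  intro m hm
  rw [tvars_add, List.mem_append] at hm
  exact hm.elim (hs m) (ht m)

theorem ta_mul {s t : Tm} (hs : TA P s) (ht : TA P t) : TA P (Tm.mul s t) := by
  intro m hm
  rw [tvars_mul, List.mem_append] at hm
  exact hm.elim (hs m) (ht m)

theorem ta_neg {s : Tm} (hs : TA P s) : TA P (Tm.neg s) := by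
  intro m hm
  rw [tvars_neg] at hm
  exact hs m hm

theorem ta_sumT {l : List Tm} (h : ∀ t ∈ l, TA P t) : TA P (sumT l) := by
  intro m hm
  rw [mem_sumT] at hm
  obtain ⟨t, ht, hm⟩ := hm
  exact h t ht m hm

theorem ta_prodT {l : List Tm} (h : ∀ t ∈ l, TA P t) : TA P (prodT l) := by
  intro m hm
  rw [mem_prodT] at hm
  obtain ⟨t, ht, hm⟩ := hm
  exact h t ht m hm

theorem fa_eq {s t : Tm} (hs : TA P s) (ht : TA P t) : FA P (Fm.eq s t) := by
  intro m hm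
  rw [fvars_eq, List.mem_append] at hm
  exact hm.elim (hs m) (ht m)

theorem fa_lt {s t : Tm} (hs : TA P s) (ht : TA P t) : FA P (Fm.lt s t) := by
  intro m hm
  rw [fvars_lt, List.mem_append] at hm
  exact hm.elim (hs m) (ht m)

theorem fa_and {s t : Fm} (hs : FA P s) (ht : FA P t) : FA P (Fm.and s t) := by
  intro m hm
  rw [fvars_and, List.mem_append] at hm
  exact hm.elim (hs m) (ht m)

theorem fa_not {s : Fm} (hs : FA P s) : FA P (Fm.not s) := by
  intro m hm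
  rw [fvars_not] at hm
  exact hs m hm

theorem fa_tt : FA P tt := by
  intro m hm
  rw [fvars_tt] at hm
  cases hm

theorem fa_conj {l : List Fm} (h : ∀ t ∈ l, FA P t) : FA P (conj l) := by
  intro m hm
  rw [mem_conj] at hm
  obtain ⟨t, ht, hm⟩ := hm
  exact h t ht m hm

theorem ta_sum_map {α : Type} {l : List α} {f : α → Tm} (h : ∀ a ∈ l, TA P (f a)) :
    TA P (sumT (l.map f)) := by
  apply ta_sumT
  intro t ht
  rw [List.mem_map] at ht
  obtain ⟨a, ha, rfl⟩ := ht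
  exact h a ha

theorem fa_conj_map {α : Type} {l : List α} {f : α → Fm} (h : ∀ a ∈ l, FA P (f a)) :
    FA P (conj (l.map f)) := by
  apply fa_conj
  intro t ht
  rw [List.mem_map] at ht
  obtain ⟨a, ha, rfl⟩ := ht
  exact h a ha

theorem ta_pow {t : Tm} (h : TA P t) (k : ℕ) : TA P (powT' t k) := by
  unfold powT'
  apply ta_prodT
  intro t' ht'
  rw [List.mem_map] at ht'
  obtain ⟨a, _, rfl⟩ := ht'
  exact h

theorem ta_two : TA P twoT := ta_add ta_one ta_one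

theorem ta_natT (l : List Bool) : TA P (natT l) := by
  induction l with
  | nil => exact ta_zero
  | cons b l ih =>
    change TA P (Tm.add (Tm.mul (natT l) twoT) (if b then Tm.one else Tm.zero))
    refine ta_add (ta_mul ih ta_two) ?_
    split_ifs
    · exact ta_one
    · exact ta_zero

theorem ta_numT (k : ℕ) : TA P (numT k) := ta_natT _

theorem ta_oneT (b : Bool) : TA P (oneT b) := by
  unfold oneT
  split_ifs
  · exact ta_one
  · exact ta_zero

/-! ### The pieces -/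

variable {E : List ℕ} {S : List ER.Con} {wn : ℕ → ℕ}

theorem ta_mix (h3 : ∀ l < nn S, P (nm 3 l 0)) (hw : ∀ j < nn S, P (wn j)) {i : ℕ}
    (hi : i ∈ varsOf S) : TA P (mixT E S wn i) := by
  have h := List.idxOf_lt_length_of_mem hi
  unfold mixT
  split_ifs
  · exact ta_var (h3 _ h)
  · exact ta_var (hw _ h)

theorem mem_vars {c : ER.Con} (hc : c ∈ S) {i : ℕ} (hi : i ∈ c.vars) : i ∈ varsOf S :=
  List.mem_flatMap.mpr ⟨c, hc, hi⟩

theorem ta_con (h3 : ∀ l < nn S, P (nm 3 l 0)) (hw : ∀ j < nn S, P (wn j)) {c : ER.Con}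
    (hc : c ∈ S) : TA P (conT E S wn c) := by
  have hv : ∀ i ∈ c.vars, TA P (mixT E S wn i) := fun i hi => ta_mix h3 hw (mem_vars hc hi)
  cases c with
  | one i => exact ta_add (hv i (by simp [Con.vars])) (ta_neg ta_one)
  | add i j k =>
    exact ta_add (ta_add (hv i (by simp [Con.vars])) (hv j (by simp [Con.vars])))
      (ta_neg (hv k (by simp [Con.vars])))
  | mul i j k =>
    exact ta_add (ta_mul (hv i (by simp [Con.vars])) (hv j (by simp [Con.vars])))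
      (ta_neg (hv k (by simp [Con.vars])))

theorem ta_dcon (h3 : ∀ l < nn S, P (nm 3 l 0)) (hw : ∀ j < nn S, P (wn j)) (b : Bool) (t : ℕ)
    {c : ER.Con} (hc : c ∈ S) : TA P (dconT E S wn b t c) := by
  have hv : ∀ i ∈ c.vars, TA P (mixT E S wn i) := fun i hi => ta_mix h3 hw (mem_vars hc hi)
  cases c with
  | one i => exact ta_oneT _
  | add i j k => exact ta_add (ta_add (ta_oneT _) (ta_oneT _)) (ta_neg (ta_oneT _))
  | mul i j k =>
    exact ta_add (ta_add (ta_mul (ta_oneT _) (hv j (by simp [Con.vars])))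
      (ta_mul (hv i (by simp [Con.vars])) (ta_oneT _))) (ta_neg (ta_oneT _))

theorem ta_h (h3 : ∀ l < nn S, P (nm 3 l 0)) (hw : ∀ j < nn S, P (wn j)) :
    TA P (hT E S wn) :=
  ta_sum_map fun _ hc => ta_mul (ta_con h3 hw hc) (ta_con h3 hw hc)

theorem ta_dh (h3 : ∀ l < nn S, P (nm 3 l 0)) (hw : ∀ j < nn S, P (wn j)) (b : Bool) (t : ℕ) :
    TA P (dhT E S wn b t) :=
  ta_sum_map fun _ hc => ta_mul ta_two (ta_mul (ta_con h3 hw hc) (ta_dcon h3 hw b t hc))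

theorem ta_X {n : ℕ} (hw : ∀ j < n, P (wn j)) : TA P (XT n wn) := by
  apply ta_sumT
  intro t ht
  rw [List.mem_cons] at ht
  rcases ht with rfl | ht
  · exact ta_one
  · rw [List.mem_map] at ht
    obtain ⟨j, hj, rfl⟩ := ht
    rw [List.mem_range] at hj
    exact ta_mul (ta_var (hw j hj)) (ta_var (hw j hj))

theorem ta_L {n : ℕ} (hw : ∀ j < n, P (wn j)) (s : ℕ) : TA P (LT n s wn) :=
  ta_sum_map fun j hj => ta_mul (ta_pow (ta_numT s) j) (ta_var (hw j (List.mem_range.mp hj)))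

theorem ta_ow {n : ℕ} (hw : ∀ j < n, P (wn j)) {o : ℕ} (ho : o < n + 1) : TA P (owT wn o) := by
  unfold owT
  split_ifs with h
  · exact ta_one
  · exact ta_var (hw _ (by omega))

theorem ta_a {n : ℕ} (h8 : ∀ t ≤ bb n * fa n, P (nm 8 t 0)) (k : ℕ) : TA P (aT n k) :=
  ta_var (h8 _ (Nat.mul_le_mul_left _ (Nat.sub_le _ _)))

theorem mem_trip {n : ℕ} {t : ℕ × ℕ × ℕ} (ht : t ∈ trip n) : t.1 < n + 1 := by
  unfold trip at ht
  simp only [List.mem_flatMap, List.mem_map, List.mem_range] at ht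
  obtain ⟨o, ho, s, _, d, _, rfl⟩ := ht
  exact ho

theorem ta_qa {n : ℕ} (h3 : ∀ l < n, P (nm 3 l 0)) (hw : ∀ j < n, P (wn j))
    (h8 : ∀ t ≤ bb n * fa n, P (nm 8 t 0)) : TA P (qaT n wn) := by
  apply ta_sumT
  intro t ht
  simp only [List.mem_cons, List.not_mem_nil, or_false] at ht
  rcases ht with rfl | rfl | rfl
  · exact ta_pow (ta_X hw) _
  · exact ta_sum_map fun l hl => ta_mul (ta_a h8 l) (ta_var (h3 l (List.mem_range.mp hl)))
  · exact ta_sum_map fun t ht => ta_mul (ta_a h8 _) (ta_mul (ta_pow (ta_L hw _) _)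
      (ta_ow hw (mem_trip ht)))

theorem ta_dq {n : ℕ} (hw : ∀ j < n, P (wn j))
    (h8 : ∀ t ≤ bb n * fa n, P (nm 8 t 0)) {j : ℕ} (hj : j < n) : TA P (dqT n wn j) := by
  apply ta_sumT
  intro t ht
  simp only [List.mem_cons, List.not_mem_nil, or_false] at ht
  rcases ht with rfl | rfl
  · exact ta_mul (ta_numT _) (ta_mul (ta_pow (ta_X hw) _) (ta_mul ta_two (ta_var (hw j hj))))
  · exact ta_sum_map fun t ht => ta_mul (ta_a h8 _) (ta_add
      (ta_mul (ta_mul (ta_mul (ta_numT _) (ta_pow (ta_L hw _) _)) (ta_pow (ta_numT _) _))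
        (ta_ow hw (mem_trip ht))) (ta_mul (ta_pow (ta_L hw _) _) (ta_oneT _)))

theorem ta_G (h0 : P (nm 0 0 0)) (h1 : P (nm 1 0 0)) (h3 : ∀ l < nn S, P (nm 3 l 0))
    (hw : ∀ j < nn S, P (wn j)) (h8 : ∀ t ≤ bb (nn S) * fa (nn S), P (nm 8 t 0)) {pT : Tm}
    (hp : TA P pT) : TA P (GT E S wn pT) := by
  apply ta_sumT
  intro t ht
  simp only [List.mem_cons, List.not_mem_nil, or_false] at ht
  rcases ht with rfl | rfl | rfl
  · exact ta_mul (ta_h h3 hw) hp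
  · exact ta_neg (ta_mul (ta_var h0) (ta_sum_map fun l hl =>
      ta_pow (ta_var (h3 l (List.mem_range.mp hl))) _))
  · exact ta_mul (ta_var h1) (ta_qa h3 hw h8)

theorem ta_GW (h1 : P (nm 1 0 0)) (h3 : ∀ l < nn S, P (nm 3 l 0))
    (hw : ∀ j < nn S, P (wn j)) (h8 : ∀ t ≤ bb (nn S) * fa (nn S), P (nm 8 t 0)) {pT dT : Tm}
    (hp : TA P pT) (hd : TA P dT) {j : ℕ} (hj : j < nn S) : TA P (GWT E S wn pT dT j) := by
  apply ta_sumT
  intro t ht
  simp only [List.mem_cons, List.not_mem_nil, or_false] at ht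
  rcases ht with rfl | rfl | rfl
  · exact ta_mul (ta_dh h3 hw _ _) hp
  · exact ta_mul (ta_h h3 hw) (ta_mul hd (ta_mul ta_two (ta_var (hw j hj))))
  · exact ta_mul (ta_var h1) (ta_dq hw h8 hj)

theorem ta_GU (h0 : P (nm 0 0 0)) (h1 : P (nm 1 0 0)) (h3 : ∀ l < nn S, P (nm 3 l 0))
    (hw : ∀ j < nn S, P (wn j)) (h8 : ∀ t ≤ bb (nn S) * fa (nn S), P (nm 8 t 0)) {pT : Tm}
    (hp : TA P pT) {l : ℕ} (hl : l < nn S) : TA P (GUT E S wn pT l) := by
  apply ta_sumT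
  intro t ht
  simp only [List.mem_cons, List.not_mem_nil, or_false] at ht
  rcases ht with rfl | rfl | rfl
  · exact ta_mul (ta_dh h3 hw _ _) hp
  · exact ta_neg (ta_mul (ta_numT _) (ta_mul (ta_var h0) (ta_pow (ta_var (h3 l hl)) _)))
  · exact ta_mul (ta_var h1) (ta_a h8 _)

theorem fa_chX {n : ℕ} {xn : ℕ → ℕ} (hw : ∀ j < n, P (wn j)) (hx : ∀ t ≤ b0 n, P (xn t)) :
    FA P (chX n wn xn) := by
  apply fa_conj
  intro φ hφ
  rw [List.mem_cons] at hφ
  rcases hφ with rfl | hφ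
  · exact fa_eq (ta_var (hx 0 (Nat.zero_le _))) (ta_X hw)
  · rw [List.mem_map] at hφ
    obtain ⟨t, ht, rfl⟩ := hφ
    rw [List.mem_range] at ht
    exact fa_eq (ta_var (hx _ ht)) (ta_mul (ta_var (hx _ ht.le)) (ta_var (hx _ ht.le)))

theorem fa_chD {n : ℕ} {xn dn : ℕ → ℕ} (hd : ∀ t ≤ b0 n, P (dn t)) (hx : ∀ t ≤ b0 n, P (xn t)) :
    FA P (chD n xn dn) := by
  apply fa_conj
  intro φ hφ
  rw [List.mem_cons] at hφ
  rcases hφ with rfl | hφ
  · exact fa_eq (ta_var (hd 0 (Nat.zero_le _))) ta_one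
  · rw [List.mem_map] at hφ
    obtain ⟨t, ht, rfl⟩ := hφ
    rw [List.mem_range] at ht
    exact fa_eq (ta_var (hd _ ht)) (ta_mul ta_two (ta_mul (ta_var (hx _ ht.le))
      (ta_var (hd _ ht.le))))

theorem fa_chY {n : ℕ} (h8 : ∀ t ≤ bb n * fa n, P (nm 8 t 0)) : FA P (chY n) := by
  apply fa_conj
  intro φ hφ
  rw [List.mem_cons] at hφ
  rcases hφ with rfl | hφ
  · exact fa_eq (ta_var (h8 0 (Nat.zero_le _))) ta_two
  · rw [List.mem_map] at hφ
    obtain ⟨t, ht, rfl⟩ := hφ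
    rw [List.mem_range] at ht
    exact fa_and (fa_eq (ta_mul (ta_var (h8 _ ht)) (ta_var (h8 _ ht))) (ta_var (h8 _ ht.le)))
      (fa_lt ta_zero (ta_var (h8 _ ht)))

theorem fa_chT {k : ℕ} (h9 : ∀ t ≤ k, P (nm 9 t 0)) : FA P (chT k) := by
  apply fa_conj_map
  intro t ht
  rw [List.mem_range] at ht
  exact fa_eq (ta_var (h9 _ ht)) (ta_mul (ta_var (h9 _ ht.le)) (ta_var (h9 _ ht.le)))

theorem fa_body {r : ℕ} (h0 : P (nm 0 0 0)) (h1 : P (nm 1 0 0)) (h2 : P (nm 2 0 0))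
    (h3 : ∀ l < nn S, P (nm 3 l 0)) (h4 : ∀ i ≤ r, ∀ j < nn S, P (nm 4 i j))
    (h5 : ∀ i ≤ r, P (nm 5 i 0)) (h6 : ∀ i ≤ r, ∀ t ≤ b0 (nn S), P (nm 6 i t))
    (h7 : ∀ i ≤ r, ∀ t ≤ b0 (nn S), P (nm 7 i t))
    (h8 : ∀ t ≤ bb (nn S) * fa (nn S), P (nm 8 t 0)) : FA P (body E S r) := by
  have hr : ∀ i ∈ List.range (r + 1), i ≤ r := fun i hi => by
    rw [List.mem_range] at hi
    omega
  apply fa_conj
  intro φ hφ
  simp only [List.mem_cons, List.not_mem_nil, or_false] at hφ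
  rcases hφ with rfl | rfl | rfl | rfl | rfl | rfl | rfl | rfl | rfl
  · exact fa_chY h8
  · exact fa_conj_map fun i hi => fa_chX (h4 i (hr i hi)) (h6 i (hr i hi))
  · exact fa_conj_map fun i hi => fa_chD (h7 i (hr i hi)) (h6 i (hr i hi))
  · exact fa_conj_map fun i hi => fa_lt ta_zero (ta_var (h5 i (hr i hi)))
  · exact fa_eq (ta_sum_map fun i hi => ta_var (h5 i (hr i hi))) ta_one
  · apply fa_conj
    intro φ hφ
    simp only [List.mem_flatMap, List.mem_map] at hφ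
    obtain ⟨i, hi, i', hi', rfl⟩ := hφ
    split_ifs
    · exact fa_tt
    · exact fa_not (fa_conj_map fun j hj => fa_eq
        (ta_var (h4 i (hr i hi) j (List.mem_range.mp hj)))
        (ta_var (h4 i' (hr i' hi') j (List.mem_range.mp hj))))
  · exact fa_conj_map fun i hi => fa_eq (ta_G h0 h1 h3 (h4 i (hr i hi)) h8
      (ta_var (h6 i (hr i hi) _ le_rfl))) (ta_var h2)
  · apply fa_conj
    intro φ hφ
    simp only [List.mem_flatMap, List.mem_map] at hφ
    obtain ⟨i, hi, j, hj, rfl⟩ := hφ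
    exact fa_eq (ta_GW h1 h3 (h4 i (hr i hi)) h8 (ta_var (h6 i (hr i hi) _ le_rfl))
      (ta_var (h7 i (hr i hi) _ le_rfl)) (List.mem_range.mp hj)) ta_zero
  · exact fa_conj_map fun l hl => fa_eq (ta_sum_map fun i hi => ta_mul
      (ta_var (h5 i (hr i hi))) (ta_GU h0 h1 h3 (h4 i (hr i hi)) h8
        (ta_var (h6 i (hr i hi) _ le_rfl)) (List.mem_range.mp hl))) ta_zero

end

theorem fvT : S_FV := by
  intro E S r
  have key : FA (fun m => m = nm 0 0 0 ∨ m = nm 1 0 0 ∨ m = nm 2 0 0 ∨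
      (∃ l < nn S, m = nm 3 l 0) ∨
      (∃ i ≤ r, ∃ j < nn S, m = nm 4 i j) ∨ (∃ i ≤ r, m = nm 5 i 0) ∨
      (∃ i ≤ r, ∃ t ≤ b0 (nn S), m = nm 6 i t ∨ m = nm 7 i t) ∨
      (∃ t ≤ bb (nn S) * fa (nn S), m = nm 8 t 0) ∨
      (∃ t ≤ KK E S + bb (nn S), m = nm 9 t 0)) (finF E S r) := by
    set P : ℕ → Prop := (fun m => m = nm 0 0 0 ∨ m = nm 1 0 0 ∨ m = nm 2 0 0 ∨
      (∃ l < nn S, m = nm 3 l 0) ∨
      (∃ i ≤ r, ∃ j < nn S, m = nm 4 i j) ∨ (∃ i ≤ r, m = nm 5 i 0) ∨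
      (∃ i ≤ r, ∃ t ≤ b0 (nn S), m = nm 6 i t ∨ m = nm 7 i t) ∨
      (∃ t ≤ bb (nn S) * fa (nn S), m = nm 8 t 0) ∨
      (∃ t ≤ KK E S + bb (nn S), m = nm 9 t 0)) with hP
    have h0 : P (nm 0 0 0) := Or.inl rfl
    have h1 : P (nm 1 0 0) := Or.inr (Or.inl rfl)
    have h2 : P (nm 2 0 0) := Or.inr (Or.inr (Or.inl rfl))
    have h3 : ∀ l < nn S, P (nm 3 l 0) := fun l hl =>
      Or.inr (Or.inr (Or.inr (Or.inl ⟨l, hl, rfl⟩)))
    have h4 : ∀ i ≤ r, ∀ j < nn S, P (nm 4 i j) := fun i hi j hj =>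
      Or.inr (Or.inr (Or.inr (Or.inr (Or.inl ⟨i, hi, j, hj, rfl⟩))))
    have h5 : ∀ i ≤ r, P (nm 5 i 0) := fun i hi =>
      Or.inr (Or.inr (Or.inr (Or.inr (Or.inr (Or.inl ⟨i, hi, rfl⟩)))))
    have h6 : ∀ i ≤ r, ∀ t ≤ b0 (nn S), P (nm 6 i t) := fun i hi t ht =>
      Or.inr (Or.inr (Or.inr (Or.inr (Or.inr (Or.inr (Or.inl ⟨i, hi, t, ht, Or.inl rfl⟩))))))
    have h7 : ∀ i ≤ r, ∀ t ≤ b0 (nn S), P (nm 7 i t) := fun i hi t ht =>
      Or.inr (Or.inr (Or.inr (Or.inr (Or.inr (Or.inr (Or.inl ⟨i, hi, t, ht, Or.inr rfl⟩))))))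
    have h8 : ∀ t ≤ bb (nn S) * fa (nn S), P (nm 8 t 0) := fun t ht =>
      Or.inr (Or.inr (Or.inr (Or.inr (Or.inr (Or.inr (Or.inr (Or.inl ⟨t, ht, rfl⟩)))))))
    have h9 : ∀ t ≤ KK E S + bb (nn S), P (nm 9 t 0) := fun t ht =>
      Or.inr (Or.inr (Or.inr (Or.inr (Or.inr (Or.inr (Or.inr (Or.inr ⟨t, ht, rfl⟩)))))))
    apply fa_conj
    intro φ hφ
    simp only [List.mem_cons, List.not_mem_nil, or_false] at hφ
    rcases hφ with rfl | rfl | rfl | rfl | rfl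
    · exact fa_body h0 h1 h2 h3 h4 h5 h6 h7 h8
    · exact fa_eq (ta_add (ta_var (h9 0 (Nat.zero_le _))) (ta_var (h9 0 (Nat.zero_le _)))) ta_one
    · exact fa_chT h9
    · exact fa_eq (ta_var h0) (ta_var (h9 _ (Nat.le_add_right _ _)))
    · exact fa_eq (ta_var h1) (ta_var (h9 _ le_rfl))
  exact key

theorem fv2T : S_FV2 := by
  intro E S r
  refine ⟨?_, ?_, ?_, ?_⟩
  · rw [finF, mem_conj]
    refine ⟨Fm.eq cV (Tm.var (nm 9 (KK E S) 0)), by simp, ?_⟩
    rw [fvars_eq, cV, tvars_var]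
    simp
  · rw [finF, mem_conj]
    refine ⟨Fm.eq eV (Tm.var (nm 9 (KK E S + bb (nn S)) 0)), by simp, ?_⟩
    rw [fvars_eq, eV, tvars_var]
    simp
  · intro l hl
    rw [finF, mem_conj]
    refine ⟨body E S r, by simp, ?_⟩
    rw [body, mem_conj]
    refine ⟨conj ((List.range (r + 1)).map fun i =>
      Fm.eq (GT E S (nm 4 i) (Tm.var (nm 6 i (b0 (nn S))))) vV), by simp, ?_⟩
    rw [mem_conj]
    refine ⟨Fm.eq (GT E S (nm 4 0) (Tm.var (nm 6 0 (b0 (nn S))))) vV,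
      List.mem_map.mpr ⟨0, List.mem_range.mpr (Nat.succ_pos r), rfl⟩, ?_⟩
    rw [fvars_eq, List.mem_append]
    left
    rw [GT, mem_sumT]
    refine ⟨Tm.neg (Tm.mul cV (sumT ((List.range (nn S)).map fun l =>
      powT' (Tm.var (nm 3 l 0)) 6))), by simp, ?_⟩
    rw [tvars_neg, tvars_mul, List.mem_append]
    right
    rw [mem_sumT]
    refine ⟨powT' (Tm.var (nm 3 l 0)) 6, List.mem_map.mpr ⟨l, List.mem_range.mpr hl, rfl⟩, ?_⟩
    rw [powT', mem_prodT]
    refine ⟨Tm.var (nm 3 l 0), List.mem_map.mpr ⟨0, List.mem_range.mpr (by norm_num), rfl⟩, ?_⟩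
    rw [tvars_var]
    simp
  · intro t ht
    rw [finF, mem_conj]
    refine ⟨body E S r, by simp, ?_⟩
    rw [body, mem_conj]
    refine ⟨chY (nn S), by simp, ?_⟩
    rw [chY, mem_conj]
    cases t with
    | zero =>
      refine ⟨Fm.eq (Tm.var (nm 8 0 0)) twoT, by simp, ?_⟩
      rw [fvars_eq, tvars_var]
      simp
    | succ t =>
      refine ⟨Fm.and (Fm.eq (Tm.mul (Tm.var (nm 8 (t + 1) 0)) (Tm.var (nm 8 (t + 1) 0)))
        (Tm.var (nm 8 t 0))) (Fm.lt Tm.zero (Tm.var (nm 8 (t + 1) 0))),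
        List.mem_cons_of_mem _ (List.mem_map.mpr ⟨t, List.mem_range.mpr ht, rfl⟩), ?_⟩
      rw [fvars_and, fvars_eq, tvars_mul, tvars_var]
      simp

end Pool.Agent.W765.IP
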